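import Mathlib
import Pool.Agent.N205.UR.Defs

/-!
# Algebraic K-theory of smooth projective varieties over a finite field: definitions
-/

set_option autoImplicit false

open CategoryTheory AlgebraicGeometry

namespace Pool.Agent.N205.KR

open Polynomial Pool.Agent.H914 Pool.Agent.H914.VarClass Pool.Agent.H914.VarClass.Obj
  Pool.Agent.W492.BB Pool.Agent.W484.CK Pool.Agent.N205.SE

open Pool.Agent.N205.UR (IsAdd IsBiadd IsTors SameMult IsMult IsSum IsZeroClass)

section groups

variable (M N : Type) [AddCommGroup M] [AddCommGroup N]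

/-- For every `c > 0` only finitely many elements of the group `M` are killed by `c`. -/
def FinTors : Prop := ∀ c : ℕ, 0 < c → {x : M | c • x = 0}.Finite

/-- The groups `M` and `N` are isomorphic up to groups of bounded exponent: there are
homomorphisms in both directions, both compositions are multiplication by some `c > 0`. -/
def SameUpTo : Prop :=
  ∃ (c : ℕ) (f : M → N) (g : N → M), 0 < c ∧ IsAdd f ∧ IsAdd g ∧ (∀ x, SameMult 1 c (g (f x)) x) ∧
    ∀ y, SameMult 1 c (f (g y)) y

end groups

variable {k : Type} [Field k] {𝒱 : VarClass k} {C : TheoryData.{0, 0, 0} 𝒱 ℚ}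

/-- The data of the algebraic K-theory of the varieties in the class `𝒱`; here `C` stands for the Chow
groups with rational coefficients. -/
structure KTheory (C : TheoryData.{0, 0, 0} 𝒱 ℚ) where
  /-- the group `K_n(X)` -/
  K : ℕ → 𝒱.Obj → Type
  [group : ∀ n X, AddCommGroup (K n X)]
  /-- the Chern character of an element of `K_0(X × Y)`, multiplied by the Todd class of `X`, an element
  of the Chow group of `X × Y` with rational coefficients -/
  ch : ∀ {X Y : 𝒱.Obj}, K 0 (X.prod Y) → C.A (X.prod Y)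
  /-- the composition of elements of `K_0`, considered as correspondences -/
  comp : ∀ {X Y Z : 𝒱.Obj}, K 0 (X.prod Y) → K 0 (Y.prod Z) → K 0 (X.prod Z)
  /-- the class of the structure sheaf of the transposed graph of a morphism `X ⟶ Y` -/
  graph : ∀ {X Y : 𝒱.Obj}, (X ⟶ Y) → K 0 (Y.prod X)
  /-- the action of elements of `K_0(X × Y)`: the pull-back to `X × Y`, followed by multiplication and
  by the push-forward to `Y` -/
  app : ∀ {n : ℕ} {X Y : 𝒱.Obj}, K 0 (X.prod Y) → K n X → K n Y
  /-- the Adams operation `ψ^Q` -/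
  psi : ∀ {n : ℕ} {X : 𝒱.Obj}, K n X → K n X

attribute [instance] KTheory.group

/-- The known properties of the algebraic K-theory of smooth projective varieties over the field with
`Q` elements; `π` is the Frobenius endomorphism of `X₀`:
* `K_0` with rational coefficients is the Chow group with rational coefficients (Grothendieck-Riemann-
  Roch), compatibly with the composition of correspondences and the classes of graphs;
* elements of `K_0` act as correspondences;
* `riemannRoch`: if the component of the correspondence is homogeneous of degree `dim X + j`, then it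
  shifts the weights for the Adams operation by `j`, up to a bounded multiple (the theorem of
  Riemann-Roch for the Adams operation `ψ^Q`);
* `weights`: `K_n(X)` is, up to a bounded multiple, the sum of finitely many parts on which `ψ^Q` is
  multiplication by `Q ^ i` (Soulé);
* `frobenius`: the pull-back along the Frobenius endomorphism is `ψ^Q`;
* `finite`: `K_n(X)` has only finitely many elements of each order, if `n ≥ dim X - 1` (the
  K-groups with finite coefficients are finite in degrees at least `dim X`). -/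
structure IsKTheory (T : KTheory C) (Q : ℕ) {X₀ : 𝒱.Obj} (π : X₀ ⟶ X₀) : Prop where
  ch_add : ∀ (X Y : 𝒱.Obj) (z z' : T.K 0 (X.prod Y)), IsSum (T.ch z) (T.ch z') (T.ch (z + z'))
  torsion : ∀ (X Y : 𝒱.Obj) (z : T.K 0 (X.prod Y)), IsZeroClass (T.ch z) → IsTors z
  multiple : ∀ (X Y : 𝒱.Obj) (z : C.A (X.prod Y)),
    ∃ (n : ℕ) (w : T.K 0 (X.prod Y)), 0 < n ∧ IsMult n z (T.ch w)
  ch_comp : ∀ (X Y Z : 𝒱.Obj) (Γ : T.K 0 (X.prod Y)) (Δ : T.K 0 (Y.prod Z)),
    T.ch (T.comp Γ Δ) = compose C (T.ch Γ) (T.ch Δ)
  ch_graph : ∀ (X Y : 𝒱.Obj) (f : X ⟶ Y), T.ch (T.graph f) = C.down (Obj.lift f (𝟙 X)) 1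
  biadd : ∀ (n : ℕ) (X Y : 𝒱.Obj), IsBiadd (T.app (n := n) (X := X) (Y := Y))
  app_comp : ∀ (n : ℕ) (X Y Z : 𝒱.Obj) (Γ : T.K 0 (X.prod Y)) (Δ : T.K 0 (Y.prod Z)) (m : T.K n X),
    T.app (T.comp Γ Δ) m = T.app Δ (T.app Γ m)
  app_id : ∀ (n : ℕ) (X : 𝒱.Obj) (m : T.K n X), T.app (T.graph (𝟙 X)) m = m
  psi_add : ∀ (n : ℕ) (X : 𝒱.Obj), IsAdd (T.psi (n := n) (X := X))
  riemannRoch : ∀ (n : ℕ) (X Y : 𝒱.Obj) (j : ℤ) (Γ : T.K 0 (X.prod Y)), C.Deg (X.dim + j) (T.ch Γ) →
    ∃ N : ℕ, 0 < N ∧ ∀ m : T.K n X,
      SameMult (N * Q ^ (-j).toNat) (N * Q ^ j.toNat) (T.psi (T.app Γ m)) (T.app Γ (T.psi m))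
  weights : ∀ (n : ℕ) (X : 𝒱.Obj), ∃ N b : ℕ, 0 < N ∧ ∀ m : T.K n X, ∃ w : Fin b → T.K n X,
    (∀ i : Fin b, SameMult N (N * Q ^ (i : ℕ)) (T.psi (w i)) (w i)) ∧ SameMult N 1 m (∑ i, w i)
  frobenius : ∀ (n : ℕ) (m : T.K n X₀), T.app (T.graph π) m = T.psi m
  finite : ∀ (n : ℕ) (X : 𝒱.Obj), X.dim ≤ n + 1 → FinTors (T.K n X)

/-- There are elements `α` of `K_0(X × Y)` and `β` of `K_0(Y × X)` whose composition is a positive
multiple of the identity of `X`: the noncommutative motive of `X` is, up to multiples, a direct summand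
of the one of `Y`. For instance, this is the case if there is a surjective morphism from `Y` to `X`, or
if the derived category of `X` is a component of a semi-orthogonal decomposition of the derived category
of `Y`. -/
def IsDominated (T : KTheory C) (X Y : 𝒱.Obj) : Prop :=
  ∃ (c : ℕ) (α : T.K 0 (X.prod Y)) (β : T.K 0 (Y.prod X)), 0 < c ∧
    SameMult 1 c (T.comp α β) (T.graph (𝟙 X))

/-- `KForIndep q f`: the following holds for the Chow groups `C` with rational coefficients and the
K-theory `T` of all classes `𝒱` of varieties over fields `k` (finite, in the intended use), every Weil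
cohomology theory `H` with coefficients in an algebraically closed field `K` of characteristic zero,
and all `A`, `Z` as in `IsIndepSituation`: there is a nonempty finite set `J` such that
* for all `n`, the groups `K_n(A × Z)` and `K_n(Z)^J` are isomorphic up to groups of bounded exponent;
* for all `n ≥ dim (A × Z) - 1`: `K_n(A × Z)` is finitely generated (finite) if and only if `K_n(Z)`
  is;
* for all varieties `X` dominated by `A × Z` and all `n ≥ dim X - 1`: if `K_n(Z)` is finitely
  generated (finite) then so is `K_n(X)`. -/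
def KForIndep (q : ℕ) {I : Type} (f : I → ℤ[X]) : Prop :=
  ∀ (k : Type) [Field k] (𝒱 : VarClass k) (C : TheoryData.{0, 0, 0} 𝒱 ℚ) [IsChow C]
    (K : Type) [Field K] [IsAlgClosed K] [CharZero K] (H : WeilTheoryData.{0, 0, 0} C K)
    [IsWeil H] (s : ℕ) (A Z : 𝒱.Obj) (πA : A ⟶ A) (πZ : Z ⟶ Z),
      IsIndepSituation H q s f πA πZ → ∀ T : KTheory C,
        IsKTheory T (q ^ s) (prodMap πA πZ) → ∃ (J : Type) (_ : Finite J) (_ : Nonempty J),
          (∀ n : ℕ, SameUpTo (T.K n (A.prod Z)) (J → T.K n Z)) ∧
          (∀ n : ℕ, (A.prod Z).dim ≤ n + 1 →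
            (AddGroup.FG (T.K n (A.prod Z)) ↔ AddGroup.FG (T.K n Z)) ∧
            (Finite (T.K n (A.prod Z)) ↔ Finite (T.K n Z))) ∧
          ∀ X : 𝒱.Obj, IsDominated T X (A.prod Z) → ∀ n : ℕ, X.dim ≤ n + 1 →
            (AddGroup.FG (T.K n Z) → AddGroup.FG (T.K n X)) ∧
            (Finite (T.K n Z) → Finite (T.K n X))

end Pool.Agent.N205.KR
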