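import Mathlib
import Pool.Agent.N205.NR.Germ
import Pool.Agent.N205.KR.Defs

/-!
# The rational theory attached to K-theory
-/

set_option autoImplicit false
set_option linter.unusedSectionVars false

open CategoryTheory AlgebraicGeometry TensorProduct

namespace Pool.Agent.N205.KR

open Polynomial Pool.Agent.H914 Pool.Agent.H914.VarClass Pool.Agent.H914.VarClass.Obj
  Pool.Agent.W492.BB Pool.Agent.W484 Pool.Agent.N205.NR

open Pool.Agent.N205.UR (IsAdd IsBiadd IsTors SameMult IsMult IsSum IsZeroClass)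

variable {k : Type} [Field k] {𝒱 : VarClass k} {C : TheoryData.{0, 0, 0} 𝒱 ℚ} [hC : IsChow C]
  {T : KTheory C} {Q : ℕ} {X₀ : 𝒱.Obj} {π : X₀ ⟶ X₀} (hT : IsKTheory T Q π) (n : ℕ)
  {X Y Z : 𝒱.Obj}

/-- The Chern character as a homomorphism. -/
noncomputable def chH (X Y : 𝒱.Obj) : T.K 0 (X.prod Y) →+ C.A (X.prod Y) := AddMonoidHom.mk' T.ch (hT.ch_add X Y)

/-- The action of correspondences as a homomorphism. -/
noncomputable def appH (X Y : 𝒱.Obj) : T.K 0 (X.prod Y) →+ T.K n X →+ T.K n Y :=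
  AddMonoidHom.mk' (fun Γ => AddMonoidHom.mk' (T.app Γ) ((hT.biadd n X Y).1 Γ)) fun Γ Δ => by
    ext m
    exact (hT.biadd n X Y).2 m Γ Δ

/-- The Adams operation as a homomorphism. -/
def psiH (X : 𝒱.Obj) : T.K n X →+ T.K n X := AddMonoidHom.mk' T.psi (hT.psi_add n X)

theorem appH_apply (Γ : T.K 0 (X.prod Y)) (m : T.K n X) : appH hT n X Y Γ m = T.app Γ m := rfl

theorem ch_torsion (z : T.K 0 (X.prod Y)) (h : chH hT X Y z = 0) : ∃ c : ℕ, 0 < c ∧ c • z = 0 :=
  hT.torsion X Y z h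

theorem ch_multiple (y : C.A (X.prod Y)) : ∃ c : ℕ, 0 < c ∧ ∃ z, chH hT X Y z = (c : ℚ) • y := by
  obtain ⟨c, w, hc, hw⟩ := hT.multiple X Y y
  exact ⟨c, hc, w, hw⟩

/-- The operation of an element of `K_0` on sequences. -/
noncomputable def actG (X Y : 𝒱.Obj) :
    T.K 0 (X.prod Y) →+ (Germ (T.K n X) →ₗ[ℚ] Germ (T.K n Y)) where
  toFun Γ := germMap (appH hT n X Y Γ)
  map_zero' := by
    refine germ_ext fun m => ?_
    rw [germMap_germ, map_zero, LinearMap.zero_apply]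
    exact map_zero germ
  map_add' Γ Δ := by
    refine germ_ext fun m => ?_
    rw [LinearMap.add_apply, germMap_germ, germMap_germ, germMap_germ, ← map_add germ]
    congr 1
    funext k
    rw [map_add]
    rfl

theorem actG_germ (Γ : T.K 0 (X.prod Y)) (m : ℕ → T.K n X) :
    actG hT n X Y Γ (germ m) = germ fun k => T.app Γ (m k) := rfl

/-- The operation of a rational correspondence on sequences. -/
noncomputable def actR (X Y : 𝒱.Obj) :
    C.A (X.prod Y) →ₗ[ℚ] Germ (T.K n X) →ₗ[ℚ] Germ (T.K n Y) :=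
  (exists_ext (chH hT X Y) (ch_torsion hT) (ch_multiple hT) (actG hT n X Y)).choose

theorem actR_ch (Γ : T.K 0 (X.prod Y)) : actR hT n X Y (T.ch Γ) = actG hT n X Y Γ :=
  (exists_ext (chH hT X Y) (ch_torsion hT) (ch_multiple hT) (actG hT n X Y)).choose_spec Γ

/-- The Adams operation on sequences. -/
noncomputable def psiG (X : 𝒱.Obj) : Germ (T.K n X) →ₗ[ℚ] Germ (T.K n X) := germMap (psiH hT n X)

theorem psiG_germ (m : ℕ → T.K n X) : psiG hT n X (germ m) = germ fun k => T.psi (m k) := rfl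

/-- The part of weight `i`. -/
noncomputable def grG (X : 𝒱.Obj) (i : ℤ) : Submodule ℚ (Germ (T.K n X)) :=
  LinearMap.ker (psiG hT n X - ((Q : ℚ) ^ i) • LinearMap.id)

theorem mem_grG {i : ℤ} {m : Germ (T.K n X)} :
    m ∈ grG hT n X i ↔ psiG hT n X m = (Q : ℚ) ^ i • m := by
  rw [grG, LinearMap.mem_ker, LinearMap.sub_apply, sub_eq_zero]
  rfl

theorem eq_inv_smul {y : C.A X} {c : ℕ} (hc : 0 < c) {z : C.A X} (hz : z = (c : ℚ) • y) :
    y = (c : ℚ)⁻¹ • z := by
  have hn' : (c : ℚ) ≠ 0 := by exact_mod_cast hc.ne'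
  rw [hz, smul_smul, inv_mul_cancel₀ hn', one_smul]

theorem comp_smul_smul (a b : ℚ) (Γ : C.A (X.prod Y)) (Δ : C.A (Y.prod Z)) :
    C.comp (a • Γ) (b • Δ) = (a * b) • C.comp Γ Δ := by
  rw [TheoryData.comp, TheoryData.comp, map_smul, map_smul, smul_mul_assoc, mul_smul_comm,
    map_smul, map_smul, smul_smul, mul_comm]

theorem actR_comp (Γ : C.A (X.prod Y)) (Δ : C.A (Y.prod Z)) (m : Germ (T.K n X)) :
    actR hT n X Z (C.comp Γ Δ) m = actR hT n Y Z Δ (actR hT n X Y Γ m) := by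
  obtain ⟨c, hc, w, hw⟩ := ch_multiple hT Γ
  obtain ⟨c', hc', w', hw'⟩ := ch_multiple hT Δ
  have h1 : C.comp (T.ch w) (T.ch w') = T.ch (T.comp w w') := (hT.ch_comp X Y Z w w').symm
  have h2 : actG hT n X Z (T.comp w w') = actG hT n Y Z w' ∘ₗ actG hT n X Y w := by
    refine germ_ext fun m => ?_
    rw [LinearMap.comp_apply, actG_germ, actG_germ, actG_germ]
    congr 1
    funext k
    exact hT.app_comp n X Y Z w w' (m k)
  have hw1 : T.ch w = (c : ℚ) • Γ := hw
  have hw1' : T.ch w' = (c' : ℚ) • Δ := hw'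
  rw [eq_inv_smul hc hw1, eq_inv_smul hc' hw1', comp_smul_smul, h1, map_smul,
    LinearMap.smul_apply, actR_ch, map_smul, map_smul, LinearMap.smul_apply,
    LinearMap.smul_apply, map_smul, actR_ch, actR_ch, h2, smul_smul, mul_comm]
  rfl

theorem actR_id (m : Germ (T.K n X)) : actR hT n X X (C.graph (𝟙 X)) m = m := by
  have h1 : C.graph (𝟙 X) = T.ch (T.graph (𝟙 X)) := (hT.ch_graph X X (𝟙 X)).symm
  rw [h1, actR_ch]
  have h2 : actG hT n X X (T.graph (𝟙 X)) = LinearMap.id := by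
    refine germ_ext fun m => ?_
    rw [LinearMap.id_apply, actG_germ]
    congr 1
    funext k
    exact hT.app_id n X (m k)
  rw [h2, LinearMap.id_apply]

theorem cast_pow (hQ : Q ≠ 0) (j : ℤ) : (Q : ℚ) ^ j * (Q : ℚ) ^ (-j).toNat = (Q : ℚ) ^ j.toNat := by
  have hQ' : (Q : ℚ) ≠ 0 := by exact_mod_cast hQ
  rw [← zpow_natCast, ← zpow_natCast, ← zpow_add₀ hQ']
  congr 1
  omega

/-- The theorem of Riemann-Roch for sequences. -/
theorem psiG_actR (hQ : Q ≠ 0) {j : ℤ} {Γ : C.A (X.prod Y)} (hΓ : C.Deg (X.dim + j) Γ)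
    (m : Germ (T.K n X)) :
    psiG hT n Y (actR hT n X Y Γ m) = (Q : ℚ) ^ j • actR hT n X Y Γ (psiG hT n X m) := by
  have hQ' : (Q : ℚ) ≠ 0 := by exact_mod_cast hQ
  obtain ⟨c, hc, w, hw⟩ := ch_multiple hT Γ
  have hw1 : T.ch w = (c : ℚ) • Γ := hw
  have hd : C.Deg (X.dim + j) (T.ch w) := by
    rw [hw1]
    exact Submodule.smul_mem _ _ hΓ
  obtain ⟨N, hN, h1⟩ := hT.riemannRoch n X Y j w hd
  have hN' : (N : ℚ) ≠ 0 := by exact_mod_cast hN.ne'
  have key : ((N * Q ^ (-j).toNat : ℕ) : ℚ) • psiG hT n Y (actG hT n X Y w m) =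
      ((N * Q ^ j.toNat : ℕ) : ℚ) • actG hT n X Y w (psiG hT n X m) := by
    have h2 : ((N * Q ^ (-j).toNat : ℕ) : ℚ) • (psiG hT n Y ∘ₗ actG hT n X Y w) =
        ((N * Q ^ j.toNat : ℕ) : ℚ) • (actG hT n X Y w ∘ₗ psiG hT n X) := by
      refine germ_ext fun m => ?_
      rw [LinearMap.smul_apply, LinearMap.smul_apply, LinearMap.comp_apply, LinearMap.comp_apply,
        Nat.cast_smul_eq_nsmul, Nat.cast_smul_eq_nsmul, actG_germ, psiG_germ, psiG_germ, actG_germ,
        ← map_nsmul, ← map_nsmul]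
      congr 1
      funext k
      exact h1 (m k)
    have h3 := LinearMap.congr_fun h2 m
    rw [LinearMap.smul_apply, LinearMap.smul_apply, LinearMap.comp_apply,
      LinearMap.comp_apply] at h3
    exact h3
  have key2 : psiG hT n Y (actG hT n X Y w m) = (Q : ℚ) ^ j • actG hT n X Y w (psiG hT n X m) := by
    have h4 : ((N * Q ^ (-j).toNat : ℕ) : ℚ) ≠ 0 := by
      push_cast
      exact mul_ne_zero hN' (pow_ne_zero _ hQ')
    refine smul_right_injective _ h4 ?_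
    change ((N * Q ^ (-j).toNat : ℕ) : ℚ) • psiG hT n Y (actG hT n X Y w m) =
      ((N * Q ^ (-j).toNat : ℕ) : ℚ) • (Q : ℚ) ^ j • actG hT n X Y w (psiG hT n X m)
    rw [key, smul_smul]
    congr 1
    push_cast
    rw [← cast_pow hQ j]
    ring
  rw [eq_inv_smul hc hw1, map_smul, LinearMap.smul_apply, LinearMap.smul_apply, map_smul, actR_ch,
    key2, smul_comm]

theorem actR_mem (hQ : Q ≠ 0) {i j : ℤ} {Γ : C.A (X.prod Y)} (hΓ : C.Deg (X.dim + j) Γ)
    {m : Germ (T.K n X)} (hm : m ∈ grG hT n X i) : actR hT n X Y Γ m ∈ grG hT n Y (i + j) := by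
  have hQ' : (Q : ℚ) ≠ 0 := by exact_mod_cast hQ
  rw [mem_grG] at hm ⊢
  rw [psiG_actR hT n hQ hΓ, hm, map_smul, smul_smul, zpow_add₀ hQ', mul_comm]

/-- The rational theory. -/
noncomputable def corrData : CH.CorrData C where
  M X := Germ (T.K n X)
  gr := grG hT n
  act := fun {X Y} => actR hT n X Y

theorem isCorrTheory (hQ : Q ≠ 0) : CH.IsCorrTheory (corrData hT n) where
  app_mem := fun hΓ hm => actR_mem hT n hQ hΓ hm
  app_comp := fun Γ Δ m => actR_comp hT n Γ Δ m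
  app_id := fun m => actR_id hT n m

theorem actsAsPower : CH.ActsAsPower (corrData hT n) π Q := by
  intro i m hm
  have h0 := (mem_grG hT n (m := m)).1 hm
  have h1 : C.cograph π = T.ch (T.graph π) := (hT.ch_graph X₀ X₀ π).symm
  have h2 : actG hT n X₀ X₀ (T.graph π) = psiG hT n X₀ := by
    refine germ_ext fun m => ?_
    rw [actG_germ, psiG_germ]
    congr 1
    funext k
    exact hT.frobenius n (m k)
  have h3 : actR hT n X₀ X₀ (T.ch (T.graph π)) m = (Q : ℚ) ^ i • m := by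
    rw [actR_ch, h2]
    exact h0
  rw [← h1] at h3
  exact h3

/-- The parts of the different weights span the space. -/
theorem mem_iSup_gr (m : Germ (T.K n X)) : m ∈ ⨆ i, grG hT n X i := by
  obtain ⟨N, b, hN, h1⟩ := hT.weights n X
  have hN' : (N : ℚ) ≠ 0 := by exact_mod_cast hN.ne'
  obtain ⟨c, hc, x, hx⟩ := germ_multiple m
  have hc' : (c : ℚ) ≠ 0 := by exact_mod_cast hc.ne'
  choose w hw hw' using fun l => h1 (x l)
  have h2 : (N : ℚ) • germ x = ∑ i : Fin b, germ fun l => w l i := by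
    rw [Nat.cast_smul_eq_nsmul, ← map_nsmul, ← map_sum]
    congr 1
    funext l
    have h3 : N • x l = 1 • ∑ i, w l i := hw' l
    rw [Finset.sum_apply]
    rw [one_smul] at h3
    exact h3
  have h3 : ∀ i : Fin b, (germ fun l => w l i) ∈ grG hT n X ((i : ℕ) : ℤ) := by
    intro i
    rw [mem_grG, psiG_germ]
    refine smul_right_injective _ hN' ?_
    change (N : ℚ) • (germ fun l => T.psi (w l i)) = (N : ℚ) • (Q : ℚ) ^ ((i : ℕ) : ℤ) • germ fun l => w l i
    have h4 : (N : ℚ) • (Q : ℚ) ^ ((i : ℕ) : ℤ) • (germ fun l => w l i) =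
        ((N * Q ^ (i : ℕ) : ℕ) : ℚ) • germ fun l => w l i := by
      rw [smul_smul, zpow_natCast]
      push_cast
      rfl
    rw [h4, Nat.cast_smul_eq_nsmul, Nat.cast_smul_eq_nsmul, ← map_nsmul, ← map_nsmul]
    congr 1
    funext l
    exact hw l i
  have h4 : m = ((c : ℚ)⁻¹ * (N : ℚ)⁻¹) • ∑ i : Fin b, germ fun l => w l i := by
    rw [← h2, hx, smul_smul, smul_smul, mul_assoc, mul_assoc, ← mul_assoc ((N : ℚ)⁻¹),
      inv_mul_cancel₀ hN', one_mul, inv_mul_cancel₀ hc', one_smul]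
  rw [h4]
  refine Submodule.smul_mem _ _ (Submodule.sum_mem _ fun i _ => ?_)
  exact Submodule.mem_iSup_of_mem _ (h3 i)

end Pool.Agent.N205.KR
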