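import Mathlib
import Pool.Agent.N205.NR.Main
import Pool.Agent.N205.KR.Rat

/-!
# K-theory of products with abelian varieties: the proof
-/

set_option autoImplicit false
set_option linter.unusedSectionVars false

open CategoryTheory AlgebraicGeometry TensorProduct

namespace Pool.Agent.N205.KR

open Polynomial Pool.Agent.H914 Pool.Agent.H914.VarClass Pool.Agent.H914.VarClass.Obj
  Pool.Agent.W492.BB Pool.Agent.W484 Pool.Agent.N205.NR

open Pool.Agent.N205.UR (IsAdd IsBiadd IsTors SameMult IsMult IsSum IsZeroClass)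

section groups

variable {M N : Type} [AddCommGroup M] [AddCommGroup N]

theorem fg_of_dom (f : M →+ N) {c : ℕ} (hc : 0 < c) (h : ∀ y : N, ∃ x, f x = c • y)
    (hN : FinTors N) (hM : AddGroup.FG M) : AddGroup.FG N := by
  refine ⟨fg_of_smul (fg_map hM.out f) (n := c) (fun y _ => ?_) ?_⟩
  · obtain ⟨x, hx⟩ := h y
    exact ⟨x, AddSubgroup.mem_top x, hx⟩
  · exact (hN c hc).subset fun y hy => hy.2

theorem finite_of_dom (f : M →+ N) {c : ℕ} (hc : 0 < c) (h : ∀ y : N, ∃ x, f x = c • y)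
    (hN : FinTors N) (hM : Finite M) : Finite N := by
  have h1 : AddGroup.FG N := fg_of_dom f hc h hN inferInstance
  refine AddCommGroup.finite_of_fg_isAddTorsion _ fun y => ?_
  obtain ⟨x, hx⟩ := h y
  have h2 : IsOfFinAddOrder x := isOfFinAddOrder_of_finite x
  obtain ⟨e, he, h3⟩ := isOfFinAddOrder_iff_nsmul_eq_zero.1 h2
  refine isOfFinAddOrder_iff_nsmul_eq_zero.2 ⟨e * c, Nat.mul_pos he hc, ?_⟩
  rw [mul_smul, ← hx, ← map_nsmul, h3, map_zero]

theorem fg_pi {J : Type} [Finite J] (h : AddGroup.FG M) : AddGroup.FG (J → M) := by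
  have h1 : Module.Finite ℤ M := Module.Finite.iff_addGroup_fg.2 h
  exact Module.Finite.iff_addGroup_fg.1 inferInstance

end groups

variable {k : Type} [Field k] {𝒱 : VarClass k} {C : TheoryData.{0, 0, 0} 𝒱 ℚ} [hC : IsChow C]
  {T : KTheory C} {Q : ℕ} {X₀ : 𝒱.Obj} {π : X₀ ⟶ X₀} (hT : IsKTheory T Q π)
  {A X Y Z : 𝒱.Obj}

include hT in
theorem common_multiple {J : Type} [Fintype J] (z : J → C.A (X.prod Y)) :
    ∃ c : ℕ, 0 < c ∧ ∃ w : J → T.K 0 (X.prod Y), ∀ j, T.ch (w j) = (c : ℚ) • z j := by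
  classical
  choose n hn w hw using fun j => ch_multiple hT (z j)
  refine ⟨∏ j, n j, Finset.prod_pos fun j _ => hn j,
    fun j => (∏ l ∈ Finset.univ.erase j, n l) • w j, fun j => ?_⟩
  change chH hT X Y _ = _
  rw [map_nsmul, hw, ← Nat.cast_smul_eq_nsmul ℚ, smul_smul, ← Nat.cast_mul,
    Finset.prod_erase_mul _ _ (Finset.mem_univ j)]

include hT in
/-- The compositions of the correspondences. -/
theorem exists_comp {J : Type} [Fintype J] {deg : J → ℕ} {D E : J → C.A A}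
    (hdual : CH.IsDual A Z deg D E) {a b : ℕ} {ε : J → T.K 0 (Z.prod (A.prod Z))}
    {δ : J → T.K 0 ((A.prod Z).prod Z)}
    (hε : ∀ j, T.ch (ε j) = (a : ℚ) • CH.extBy C Z (D j))
    (hδ : ∀ j, T.ch (δ j) = (b : ℚ) • CH.pairBy C Z (E j)) [DecidableEq J] :
    ∃ t : ℕ, 0 < t ∧ ∀ i j, t • T.comp (ε i) (δ j) =
      (if i = j then t * (a * b) else 0) • T.graph (𝟙 Z) := by
  have h1 : ∀ p : J × J, ∃ t : ℕ, 0 < t ∧ t • (T.comp (ε p.1) (δ p.2) -
      (if p.1 = p.2 then a * b else 0) • T.graph (𝟙 Z)) = 0 := by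
    rintro ⟨i, j⟩
    refine ch_torsion hT _ ?_
    have h2 : C.comp (T.ch (ε i)) (T.ch (δ j)) = chH hT Z Z (T.comp (ε i) (δ j)) :=
      (hT.ch_comp Z (A.prod Z) Z (ε i) (δ j)).symm
    have h3 : C.graph (𝟙 Z) = chH hT Z Z (T.graph (𝟙 Z)) := (hT.ch_graph Z Z (𝟙 Z)).symm
    rw [map_sub, map_nsmul, ← h2, ← h3, hε, hδ, comp_smul_smul]
    by_cases hij : i = j
    · subst hij
      have h4 : C.comp (CH.extBy C Z (D i)) (CH.pairBy C Z (E i)) = C.graph (𝟙 Z) :=
        CH.comp_extBy_same hdual i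
      rw [h4, if_pos rfl, ← Nat.cast_smul_eq_nsmul ℚ, Nat.cast_mul, sub_self]
    · rw [CH.comp_extBy_ne hdual i j hij, if_neg hij, smul_zero, zero_smul, sub_zero]
  choose t ht h2 using h1
  refine ⟨∏ p, t p, Finset.prod_pos fun p _ => ht p, fun i j => ?_⟩
  have h3 : (∏ p, t p) • (T.comp (ε i) (δ j) -
      (if i = j then a * b else 0) • T.graph (𝟙 Z)) = 0 := by
    rw [← Finset.prod_erase_mul _ _ (Finset.mem_univ (i, j)), mul_smul, h2 (i, j), smul_zero]
  rw [smul_sub, sub_eq_zero] at h3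
  rw [h3, smul_smul, mul_ite, mul_zero]

include hT in
/-- The integral decomposition. -/
theorem exists_dec {J : Type} [Fintype J] {D E : J → C.A A} {a b : ℕ}
    {ε : J → T.K 0 (Z.prod (A.prod Z))} {δ : J → T.K 0 ((A.prod Z).prod Z)}
    (hε : ∀ j, T.ch (ε j) = (a : ℚ) • CH.extBy C Z (D j))
    (hδ : ∀ j, T.ch (δ j) = (b : ℚ) • CH.pairBy C Z (E j)) (n : ℕ)
    (h : ∀ (i : ℤ) (m : (corrData hT n).M (A.prod Z)), m ∈ (corrData hT n).gr (A.prod Z) i →
      m = ∑ j, (corrData hT n).act (CH.extBy C Z (D j))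
        ((corrData hT n).act (CH.pairBy C Z (E j)) m)) :
    ∃ c : ℕ, 0 < c ∧ ∀ m : T.K n (A.prod Z),
      (c * (a * b)) • m = c • ∑ j, T.app (ε j) (T.app (δ j) m) := by
  have h' : ∀ m : Germ (T.K n (A.prod Z)), m = ∑ j, actR hT n _ _ (CH.extBy C Z (D j))
      (actR hT n _ _ (CH.pairBy C Z (E j)) m) := by
    intro m
    have h1 := mem_iSup_gr hT n m
    induction h1 using Submodule.iSup_induction' with
    | mem i x hx => exact h i x hx
    | zero => simp only [map_zero, Finset.sum_const_zero]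
    | add x y _ _ hx hy =>
      have h2 : ∑ j, actR hT n _ _ (CH.extBy C Z (D j))
          (actR hT n _ _ (CH.pairBy C Z (E j)) (x + y)) =
          (∑ j, actR hT n _ _ (CH.extBy C Z (D j)) (actR hT n _ _ (CH.pairBy C Z (E j)) x)) +
          ∑ j, actR hT n _ _ (CH.extBy C Z (D j)) (actR hT n _ _ (CH.pairBy C Z (E j)) y) := by
        rw [← Finset.sum_add_distrib]
        exact Finset.sum_congr rfl fun j _ => by rw [map_add, map_add]
      rw [h2, ← hx, ← hy]
  have key : ∀ m : ℕ → T.K n (A.prod Z), (∀ k, m k ∈ (⊤ : AddSubgroup (T.K n (A.prod Z)))) →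
      germ (fun k => ((nsmulAddMonoidHom (a * b) : T.K n (A.prod Z) →+ T.K n (A.prod Z)) -
      ∑ j, (appH hT n _ _ (ε j)).comp (appH hT n _ _ (δ j))) (m k)) = 0 := by
    intro m _
    have h3 : ∀ j, (a * b : ℕ) • actR hT n _ _ (CH.extBy C Z (D j))
        (actR hT n _ _ (CH.pairBy C Z (E j)) (germ m)) =
        germ fun k => T.app (ε j) (T.app (δ j) (m k)) := by
      intro j
      have h4 : actR hT n _ _ (T.ch (ε j)) (actR hT n _ _ (T.ch (δ j)) (germ m)) =
          germ fun k => T.app (ε j) (T.app (δ j) (m k)) := by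
        rw [actR_ch, actR_ch, actG_germ, actG_germ]
      rw [← h4, hε, hδ, map_smul, map_smul, LinearMap.smul_apply, LinearMap.smul_apply, map_smul,
        smul_smul, ← Nat.cast_smul_eq_nsmul ℚ, Nat.cast_mul]
    have h4 : germ (fun k => ((nsmulAddMonoidHom (a * b) :
        T.K n (A.prod Z) →+ T.K n (A.prod Z)) -
        ∑ j, (appH hT n _ _ (ε j)).comp (appH hT n _ _ (δ j))) (m k)) =
          (a * b : ℕ) • germ m - ∑ j, germ fun k => T.app (ε j) (T.app (δ j) (m k)) := by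
      rw [← map_nsmul, ← map_sum, ← map_sub]
      congr 1
      funext k
      rw [AddMonoidHom.sub_apply, AddMonoidHom.finsetSum_apply, Pi.sub_apply, Finset.sum_apply]
      rfl
    rw [h4, sub_eq_zero]
    have h5 : (a * b : ℕ) • germ m = (a * b : ℕ) • ∑ j, actR hT n _ _
      (CH.extBy C Z (D j)) (actR hT n _ _ (CH.pairBy C Z (E j)) (germ m)) :=
        congrArg _ (h' (germ m))
    rw [h5, Finset.smul_sum, Finset.sum_congr rfl fun j _ => h3 j]
  obtain ⟨c, hc, h1⟩ := exists_uniform (⊤ : AddSubgroup (T.K n (A.prod Z))) _ key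
  refine ⟨c, hc, fun m => ?_⟩
  have h2 := h1 m (AddSubgroup.mem_top m)
  rw [AddMonoidHom.sub_apply, smul_sub, sub_eq_zero, AddMonoidHom.finsetSum_apply] at h2
  rw [mul_smul]
  exact h2

include hT in
/-- Isomorphism up to bounded exponent. -/
theorem same_upTo {J : Type} [Fintype J] {a b t c : ℕ} (ha : 0 < a) (hb : 0 < b) (ht : 0 < t)
    (hc : 0 < c) {ε : J → T.K 0 (Z.prod (A.prod Z))} {δ : J → T.K 0 ((A.prod Z).prod Z)}
    [DecidableEq J] (h1 : ∀ i j, t • T.comp (ε i) (δ j) =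
      (if i = j then t * (a * b) else 0) • T.graph (𝟙 Z)) {n : ℕ}
    (h2 : ∀ m : T.K n (A.prod Z), (c * (a * b)) • m = c • ∑ j, T.app (ε j) (T.app (δ j) m)) :
    ∃ (f : T.K n (A.prod Z) →+ (J → T.K n Z)) (g : (J → T.K n Z) →+ T.K n (A.prod Z)),
      (∀ x, g (f x) = (c * t * (a * b)) • x) ∧ ∀ y, f (g y) = (c * t * (a * b)) • y := by
  let f : T.K n (A.prod Z) →+ (J → T.K n Z) :=
    Pi.addMonoidHom fun j => (nsmulAddMonoidHom (c * t)).comp (appH hT n _ _ (δ j))
  let g : (J → T.K n Z) →+ T.K n (A.prod Z) :=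
    ∑ j, (appH hT n _ _ (ε j)).comp (Pi.evalAddMonoidHom _ j)
  have hf : ∀ x j, f x j = (c * t) • T.app (δ j) x := fun x j => rfl
  have hg : ∀ y, g y = ∑ j, T.app (ε j) (y j) := by
    intro y
    rw [AddMonoidHom.finsetSum_apply]
    rfl
  refine ⟨f, g, fun x => ?_, fun y => ?_⟩
  · rw [hg]
    have h3 : ∀ j, T.app (ε j) (f x j) = (c * t) • T.app (ε j) (T.app (δ j) x) := by
      intro j
      rw [hf]
      exact map_nsmul (appH hT n _ _ (ε j)) (c * t) (T.app (δ j) x)
    rw [Finset.sum_congr rfl fun j _ => h3 j, ← Finset.smul_sum, mul_comm c t, mul_smul, ← h2,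
      smul_smul]
    congr 1
    ring
  · funext j
    have h3 : T.app (δ j) (g y) = ∑ i, T.app (δ j) (T.app (ε i) (y i)) := by
      rw [hg]
      exact map_sum (appH hT n _ _ (δ j)) _ _
    have h4 : ∀ i, t • T.app (δ j) (T.app (ε i) (y i)) =
        (if i = j then t * (a * b) else 0) • y i := by
      intro i
      have h5 := congrArg (fun Γ => appH hT n _ _ Γ (y i)) (h1 i j)
      beta_reduce at h5
      rw [map_nsmul, map_nsmul, AddMonoidHom.nsmul_apply, AddMonoidHom.nsmul_apply, appH_apply,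
        appH_apply, hT.app_comp, hT.app_id] at h5
      exact h5
    rw [hf, mul_smul, h3, Finset.smul_sum, Finset.sum_congr rfl fun i _ => h4 i]
    have h5 : ∑ i, (if i = j then t * (a * b) else 0) • y i = (t * (a * b)) • y j := by
      rw [Finset.sum_eq_single j]
      · rw [if_pos rfl]
      · intro i _ hij
        rw [if_neg hij, zero_smul]
      · intro h
        exact absurd (Finset.mem_univ j) h
    rw [h5, smul_smul, Pi.smul_apply]
    congr 1
    ring

open Module Pool.Agent.W550.Corr Pool.Agent.W484.TB Pool.Agent.W484.HS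
  Pool.Agent.W521.Frob Pool.Agent.W521.Count Pool.Agent.W521.Bad Pool.Agent.W521.Descent
  Pool.Agent.W521.Density Pool.Agent.N205.SD Pool.Agent.N205.SE Pool.Agent.W484.CK

/-- **K-theory of products.** -/
theorem k_indep {I : Type} [Finite I] (g : I → ℕ) (hg : ∀ i, 0 < g i)
    {q : ℕ} (hq : 1 < q) (x : (Σ i, Fin (g i)) → ℤ) (hx : Good g q x) :
    KForIndep q (fun i => weil q (polys g x i)) := by
  classical
  intro k _ 𝒱 C _ K _ _ _ H _ s A Z πA πZ hsit T hT
  have hQ : q ^ s ≠ 0 := pow_ne_zero _ (by omega)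
  obtain ⟨J, hJ, deg, D, E', hcod, hdual, hK⟩ := kunneth_full g hg hq x hx
    (isStandard_bridge hsit.standard) hsit.pos (isAbelian_bridge hsit.abelian)
    (πZ := πZ) hsit.indep (nilpotence_bridge hsit.nilpotence)
  obtain ⟨a, ha, ε, hε⟩ := common_multiple hT (fun j => CH.extBy C Z (D j))
  obtain ⟨b, hb, δ, hδ⟩ := common_multiple hT (fun j => CH.pairBy C Z (E' j))
  obtain ⟨t, ht, h1⟩ := exists_comp hT hdual hε hδ
  have main : ∀ n : ℕ, ∃ (c : ℕ) (f : T.K n (A.prod Z) →+ (J → T.K n Z))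
      (g : (J → T.K n Z) →+ T.K n (A.prod Z)), 0 < c ∧ (∀ x, g (f x) = c • x) ∧
      ∀ y, f (g y) = c • y := by
    intro n
    obtain ⟨c, hc, h2⟩ := exists_dec hT hε hδ n fun i m hm =>
      hK (corrData hT n) (isCorrTheory hT n hQ) (actsAsPower hT n) i m hm
    obtain ⟨f, g, h3, h4⟩ := same_upTo hT ha hb ht hc h1 h2
    exact ⟨c * t * (a * b), f, g, Nat.mul_pos (Nat.mul_pos hc ht) (Nat.mul_pos ha hb), h3, h4⟩
  obtain ⟨j₀, -⟩ := hcod 0 (Nat.zero_le _)
  refine ⟨J, Finite.of_fintype J, ⟨j₀⟩, fun n => ?_, fun n hn => ?_, fun X hX n hn => ?_⟩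
  · obtain ⟨c, f, g, hc, h2, h3⟩ := main n
    refine ⟨c, f, g, hc, map_add f, map_add g, fun x => ?_, fun y => ?_⟩
    · change 1 • g (f x) = c • x
      rw [one_smul, h2]
    · change 1 • f (g y) = c • y
      rw [one_smul, h3]
  · obtain ⟨c, f, g, hc, h2, h3⟩ := main n
    have hZ : Z.dim ≤ n + 1 := by
      rw [Obj.dim_prod] at hn
      omega
    have h4 : ∀ y : T.K n Z, ∃ x, ((Pi.evalAddMonoidHom _ j₀).comp f) x = c • y := by
      intro y
      refine ⟨g fun _ => y, ?_⟩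
      change f (g fun _ => y) j₀ = c • y
      rw [h3]
      rfl
    have h5 : ∀ x : T.K n (A.prod Z), ∃ y, g y = c • x := fun x => ⟨f x, h2 x⟩
    exact ⟨⟨fun h => fg_of_dom _ hc h4 (hT.finite n Z hZ) h,
        fun h => fg_of_dom g hc h5 (hT.finite n _ hn) (fg_pi h)⟩,
      ⟨fun h => finite_of_dom _ hc h4 (hT.finite n Z hZ) h,
        fun h => finite_of_dom g hc h5 (hT.finite n _ hn) inferInstance⟩⟩
  · obtain ⟨c, f, g, hc, h2, h3⟩ := main n
    obtain ⟨d, α, β, hd, hαβ⟩ := hX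
    have h4 : ∀ z : T.K n X, ∃ y, ((appH hT n _ _ β).comp g) y = (c * d) • z := by
      intro z
      refine ⟨f (T.app α z), ?_⟩
      have h5 : T.app β (T.app α z) = d • z := by
        have h6 := congrArg (fun Γ => appH hT n _ _ Γ z) hαβ
        beta_reduce at h6
        rw [one_smul, map_nsmul, AddMonoidHom.nsmul_apply, appH_apply, appH_apply, hT.app_comp,
          hT.app_id] at h6
        exact h6
      rw [AddMonoidHom.comp_apply, h2, map_nsmul, appH_apply, h5, smul_smul]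
    exact ⟨fun h => fg_of_dom _ (Nat.mul_pos hc hd) h4 (hT.finite n X hn) (fg_pi h),
      fun h => finite_of_dom _ (Nat.mul_pos hc hd) h4 (hT.finite n X hn) inferInstance⟩

end Pool.Agent.N205.KR
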